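import Pool.Agent.Helper75.PX.Stmts

set_option autoImplicit false

universe u

namespace Pool.Agent.Helper75.PX

/-- cancelling -/
theorem B4_cancel {K A : Type u} [Field K] [Ring A] [Algebra K A] (h2 : (2 : K) ≠ 0) {α P Q : A}
    {a : K} (ha : a ≠ 0) (haa : α * α = algebraMap K A a) (h1 : α * P + α * Q = 0)
    (h3 : α * P - α * Q = 0) : P = 0 ∧ Q = 0 := by
  have hP : α * P = 0 := by
    have e : (2 : K) • (α * P) = 0 := by
      have : (2 : K) • (α * P) = (α * P + α * Q) + (α * P - α * Q) := by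
        rw [two_smul]; abel
      rw [this, h1, h3, add_zero]
    rcases smul_eq_zero.mp e with h | h
    · exact absurd h h2
    · exact h
  have hQ : α * Q = 0 := by rw [hP, zero_add] at h1; exact h1
  have fin : ∀ R : A, α * R = 0 → R = 0 := by
    intro R hR
    have e : a • R = 0 := by
      rw [Algebra.smul_def, ← haa, mul_assoc, hR, mul_zero]
    rcases smul_eq_zero.mp e with h | h
    · exact absurd h ha
    · exact h
  exact ⟨fin P hP, fin Q hQ⟩

/-- the coefficients of `w ^ k z ^ l` -/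
def B4_Y {K A : Type u} [Field K] [Ring A] [Algebra K A] (α β : A)
    (g : Fin 2 × Fin 2 × Fin 2 × Fin 2 → K) (k l : Fin 2) : A :=
  uE α β ![g (0, 0, k, l), g (1, 0, k, l), g (0, 1, k, l), g (1, 1, k, l)]

theorem B4_comm_a {K A : Type u} [Field K] [Ring A] [Algebra K A] {α β : A}
    (h : α * β = β * α) (t : Fin 4 → K) : α * uE α β t = uE α β t * α := by
  have e : α * (α * β) = α * β * α := by rw [mul_assoc, ← h]
  simp only [uE, mul_add, add_mul, mul_smul_comm, smul_mul_assoc, mul_one, one_mul]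
  rw [e, ← h]

theorem B4_comm_b {K A : Type u} [Field K] [Ring A] [Algebra K A] {α β : A}
    (h : α * β = β * α) (t : Fin 4 → K) : β * uE α β t = uE α β t * β := by
  simp only [uE, mul_add, add_mul, mul_smul_comm, smul_mul_assoc, mul_one, one_mul]
  rw [← h, ← mul_assoc, ← h]

theorem B4_sum {K A : Type u} [Field K] [Ring A] [Algebra K A] (α β z w : A)
    (g : Fin 2 × Fin 2 × Fin 2 × Fin 2 → K) :
    ∑ s, g s • e4 α β z w s = B4_Y α β g 0 0 + B4_Y α β g 0 1 * z + B4_Y α β g 1 0 * w
      + B4_Y α β g 1 1 * (w * z) := by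
  simp only [Fintype.sum_prod_type, Fin.sum_univ_two, e4, B4_Y, uE, Fin.val_zero, Fin.val_one,
    pow_zero, pow_one, one_mul, mul_one, add_mul, smul_mul_assoc, mul_assoc, Matrix.cons_val]
  abel

theorem st_B4 (hI : ST_I4.{u}) : ST_B4.{u} := by
  intro K A _ _ _ _ α β z w a b p r v h2 h
  rw [Fintype.linearIndependent_iff]
  intro g hg
  rw [B4_sum] at hg
  set Y00 := B4_Y α β g 0 0 with h00
  set Y01 := B4_Y α β g 0 1 with h01
  set Y10 := B4_Y α β g 1 0 with h10
  set Y11 := B4_Y α β g 1 1 with h11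
  have ca : ∀ k l, α * B4_Y α β g k l = B4_Y α β g k l * α := fun k l => B4_comm_a h.hab _
  have cb : ∀ k l, β * B4_Y α β g k l = B4_Y α β g k l * β := fun k l => B4_comm_b h.hab _
  -- first step: α
  have s1 : α * (Y00 + Y10 * w) + α * (Y01 * z + Y11 * (w * z)) = 0 := by
    have : α * (Y00 + Y10 * w) + α * (Y01 * z + Y11 * (w * z))
        = α * (Y00 + Y01 * z + Y10 * w + Y11 * (w * z)) := by
      simp only [mul_add]; abel
    rw [this, hg, mul_zero]
  have s2 : α * (Y00 + Y10 * w) - α * (Y01 * z + Y11 * (w * z)) = 0 := by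
    have : α * (Y00 + Y10 * w) - α * (Y01 * z + Y11 * (w * z))
        = (Y00 + Y01 * z + Y10 * w + Y11 * (w * z)) * α := by
      have e1 : Y00 * α = α * Y00 := (ca 0 0).symm
      have e2 : Y01 * z * α = -(α * (Y01 * z)) := by
        rw [mul_assoc, h.hza, mul_neg, ← mul_assoc, ← ca 0 1, mul_assoc]
      have e3 : Y10 * w * α = α * (Y10 * w) := by
        rw [mul_assoc, h.hwa, ← mul_assoc, ← ca 1 0, mul_assoc]
      have e4 : Y11 * (w * z) * α = -(α * (Y11 * (w * z))) := by
        rw [mul_assoc, mul_assoc w z α, h.hza, mul_neg, mul_neg, ← mul_assoc w α z, h.hwa,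
          mul_assoc α w z, ← mul_assoc Y11 α, ← ca 1 1, mul_assoc]
      rw [add_mul, add_mul, add_mul, e1, e2, e3, e4, mul_add, mul_add]
      abel
    rw [this, hg, zero_mul]
  obtain ⟨t1, t2⟩ := B4_cancel h2 h.a0 h.haa s1 s2
  have t3 : Y01 + Y11 * w = 0 := by
    have : (Y01 + Y11 * w) * z = 0 * z := by
      rw [add_mul, mul_assoc, t2, zero_mul]
    exact h.uz.mul_right_cancel this
  -- second step: β
  have key : ∀ P Q : A, β * P = P * β → β * Q = Q * β → P + Q * w = 0 → P = 0 ∧ Q = 0 := by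
    intro P Q hP hQ hPQ
    have u1 : β * P + β * (Q * w) = 0 := by rw [← mul_add, hPQ, mul_zero]
    have u2 : β * P - β * (Q * w) = 0 := by
      have : β * P - β * (Q * w) = (P + Q * w) * β := by
        rw [add_mul, ← hP, mul_assoc Q w β, h.hwb, mul_neg, ← mul_assoc Q β w, ← hQ,
          mul_assoc β Q w, sub_eq_add_neg]
      rw [this, hPQ, zero_mul]
    obtain ⟨p1, p2⟩ := B4_cancel h2 h.b0 h.hbb u1 u2
    refine ⟨p1, ?_⟩
    have : Q * w = 0 * w := by rw [p2, zero_mul]
    exact h.uw.mul_right_cancel this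
  obtain ⟨y00, y10⟩ := key Y00 Y10 (cb 0 0) (cb 1 0) t1
  obtain ⟨y01, y11⟩ := key Y01 Y11 (cb 0 1) (cb 1 1) t3
  have all : ∀ k l, B4_Y α β g k l = 0 := by
    intro k l
    fin_cases k <;> fin_cases l
    · exact y00
    · exact y01
    · exact y10
    · exact y11
  rintro ⟨i, j, k, l⟩
  have hz := hI K A α β z w a b p r v h2 h _ (all k l)
  fin_cases i <;> fin_cases j
  · exact congrFun hz 0
  · exact congrFun hz 2
  · exact congrFun hz 1
  · exact congrFun hz 3

end Pool.Agent.Helper75.PX
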