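import Pool.Agent.Helper75.PX.Stmts2

set_option autoImplicit false

universe u

namespace Pool.Agent.Helper75.PX

theorem st_MMM : ST_MMM.{u} := by
  intro K X _ _ _ a b
  exact ⟨(Matrix.compAlgEquiv (Fin a) (Fin b) X K).trans
    (Matrix.reindexAlgEquiv K X finProdFinEquiv)⟩

end Pool.Agent.Helper75.PX
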